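import Pool.Agent.W458.MF.OStm
import Pool.Agent.W521.Density
import Pool.Agent.W205.MF.CNT

/-!
# Counting the polynomials with the pattern with two exceptions
-/

set_option autoImplicit false

open Polynomial

namespace Pool.Agent.W460.MF

open Pool.Agent.W458.MF

section squares

variable (l : ℕ) [Fact l.Prime]

/-- nonzero squares -/
noncomputable def Sq : Finset (ZMod l) := by
  classical
  exact Finset.univ.filter (fun x => IsSquare x ∧ x ≠ 0)

/-- nonsquares -/
noncomputable def Nq : Finset (ZMod l) := by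
  classical
  exact Finset.univ.filter (fun x => ¬ IsSquare x)

theorem mem_Sq (x : ZMod l) : x ∈ Sq l ↔ IsSquare x ∧ x ≠ 0 := by
  unfold Sq
  simp

theorem mem_Nq (x : ZMod l) : x ∈ Nq l ↔ ¬ IsSquare x := by
  unfold Nq
  simp

theorem ringChar_ne (hl : l ≠ 2) : ringChar (ZMod l) ≠ 2 := by
  rwa [ZMod.ringChar_zmod_n]

theorem card_Sq_Nq (hl : l ≠ 2) : 2 * (Sq l).card + 1 = l ∧ 2 * (Nq l).card + 1 = l := by
  classical
  have h1 := quadraticChar_sum_zero (F := ZMod l) (ringChar_ne l hl)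
  have hd : Disjoint (Sq l) (Nq l) := by
    rw [Finset.disjoint_left]
    intro x hx hx'
    exact (mem_Nq l x).1 hx' ((mem_Sq l x).1 hx).1
  have hu : (Finset.univ : Finset (ZMod l)) = insert 0 (Sq l ∪ Nq l) := by
    ext x
    simp only [Finset.mem_univ, Finset.mem_insert, Finset.mem_union, mem_Sq, mem_Nq, true_iff]
    by_cases h0 : x = 0
    · exact Or.inl h0
    · by_cases h2 : IsSquare x
      · exact Or.inr (Or.inl ⟨h2, h0⟩)
      · exact Or.inr (Or.inr h2)
  have h0 : (0 : ZMod l) ∉ Sq l ∪ Nq l := by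
    rw [Finset.mem_union, mem_Sq, mem_Nq]
    rintro (⟨-, h⟩ | h)
    · exact h rfl
    · exact h (IsSquare.zero)
  have h2 : (Finset.univ : Finset (ZMod l)).card = (Sq l).card + (Nq l).card + 1 := by
    rw [hu, Finset.card_insert_of_notMem h0, Finset.card_union_of_disjoint hd]
  rw [Finset.card_univ, ZMod.card] at h2
  rw [hu, Finset.sum_insert h0, Finset.sum_union hd, quadraticChar_zero, zero_add] at h1
  have h3 : ∑ x ∈ Sq l, quadraticChar (ZMod l) x = (Sq l).card := by
    rw [Finset.sum_congr rfl (g := fun _ => (1 : ℤ))]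
    · simp
    · intro x hx
      obtain ⟨h4, h5⟩ := (mem_Sq l x).1 hx
      exact (quadraticChar_one_iff_isSquare h5).2 h4
  have h4 : ∑ x ∈ Nq l, quadraticChar (ZMod l) x = -(Nq l).card := by
    rw [Finset.sum_congr rfl (g := fun _ => (-1 : ℤ))]
    · simp
    · intro x hx
      exact quadraticChar_neg_one_iff_not_isSquare.2 ((mem_Nq l x).1 hx)
  rw [h3, h4] at h1
  omega

theorem sq_mul_nonsq {a b : ZMod l} (ha : ¬ IsSquare a) (hb : ¬ IsSquare b) :
    IsSquare (a * b) := by
  have ha' := quadraticChar_neg_one_iff_not_isSquare.2 ha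
  have hb' := quadraticChar_neg_one_iff_not_isSquare.2 hb
  have ha0 : a ≠ 0 := by rintro rfl; exact ha IsSquare.zero
  have hb0 : b ≠ 0 := by rintro rfl; exact hb IsSquare.zero
  rw [← quadraticChar_one_iff_isSquare (mul_ne_zero ha0 hb0), map_mul, ha', hb']
  norm_num

theorem nonsq_mul {a b : ZMod l} (ha : ¬ IsSquare a) (hb : IsSquare b) (hb0 : b ≠ 0) :
    ¬ IsSquare (a * b) := by
  intro h
  apply ha
  have h1 : IsSquare (a * b * b⁻¹) := h.mul hb.inv
  rwa [mul_inv_cancel_right₀ hb0] at h1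

end squares

section counts

variable (l r : ℕ) [Fact l.Prime]

/-- both classes trivial -/
noncomputable def PP : Finset (ZMod l) := by
  classical
  exact Finset.univ.filter (fun t => t + 2 * (r : ZMod l) ∈ Sq l ∧ t - 2 * (r : ZMod l) ∈ Sq l)

/-- both classes nontrivial -/
noncomputable def MM : Finset (ZMod l) := by
  classical
  exact Finset.univ.filter (fun t => t + 2 * (r : ZMod l) ∈ Nq l ∧ t - 2 * (r : ZMod l) ∈ Nq l)

/-- mixed classes -/
noncomputable def PM : Finset (ZMod l) := by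
  classical
  exact Finset.univ.filter (fun t => t + 2 * (r : ZMod l) ∈ Sq l ∧ t - 2 * (r : ZMod l) ∈ Nq l)

theorem mem_PP (t : ZMod l) : t ∈ PP l r ↔
    t + 2 * (r : ZMod l) ∈ Sq l ∧ t - 2 * (r : ZMod l) ∈ Sq l := by
  unfold PP
  simp

theorem mem_MM (t : ZMod l) : t ∈ MM l r ↔
    t + 2 * (r : ZMod l) ∈ Nq l ∧ t - 2 * (r : ZMod l) ∈ Nq l := by
  unfold MM
  simp

theorem mem_PM (t : ZMod l) : t ∈ PM l r ↔
    t + 2 * (r : ZMod l) ∈ Sq l ∧ t - 2 * (r : ZMod l) ∈ Nq l := by
  unfold PM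
  simp

theorem mem_SS' (t : ZMod l) : t ∈ Pool.Agent.W521.Density.SS l (r ^ 2) ↔
    IsSquare (t ^ 2 - 4 * (r : ZMod l) ^ 2) ∧ t ^ 2 - 4 * (r : ZMod l) ^ 2 ≠ 0 := by
  rw [Pool.Agent.W521.Density.mem_SS]
  push_cast
  rfl

theorem SS_eq [DecidableEq (ZMod l)] :
    Pool.Agent.W521.Density.SS l (r ^ 2) = PP l r ∪ MM l r := by
  ext t
  rw [mem_SS', Finset.mem_union, mem_PP, mem_MM, mem_Sq, mem_Sq, mem_Nq, mem_Nq]
  have e : t ^ 2 - 4 * (r : ZMod l) ^ 2 = (t + 2 * (r : ZMod l)) * (t - 2 * (r : ZMod l)) := by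
    ring
  rw [e]
  constructor
  · rintro ⟨h1, h2⟩
    have h3 := left_ne_zero_of_mul h2
    have h4 := right_ne_zero_of_mul h2
    by_cases h5 : IsSquare (t + 2 * (r : ZMod l))
    · left
      refine ⟨⟨h5, h3⟩, ?_, h4⟩
      by_contra h6
      rw [mul_comm] at h1
      exact nonsq_mul l h6 h5 h3 h1
    · right
      refine ⟨h5, ?_⟩
      intro h6
      exact nonsq_mul l h5 h6 h4 h1
  · rintro (⟨⟨h1, h2⟩, h3, h4⟩ | ⟨h1, h2⟩)
    · exact ⟨h1.mul h3, mul_ne_zero h2 h4⟩
    · refine ⟨sq_mul_nonsq l h1 h2, mul_ne_zero ?_ ?_⟩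
      · intro h; rw [h] at h1; exact h1 IsSquare.zero
      · intro h; rw [h] at h2; exact h2 IsSquare.zero

theorem counts (hl : 3 ≤ l) (hr : ¬ l ∣ r) :
    l ≤ 4 * (PM l r).card + 6 ∧ l ≤ 4 * (PP l r).card + 5 ∧ l ≤ 4 * (MM l r).card + 5 := by
  classical
  obtain ⟨c1, c2⟩ := card_Sq_Nq l (by omega)
  have hlr : ¬ l ∣ r ^ 2 := fun h => hr ((Fact.out : l.Prime).dvd_of_dvd_pow h)
  obtain ⟨c3, c4⟩ := Pool.Agent.W521.Density.card_SS l (r ^ 2) hl hlr
  have hd1 : Disjoint (PP l r) (MM l r) := by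
    rw [Finset.disjoint_left]
    intro t h1 h2
    rw [mem_PP, mem_Sq] at h1
    rw [mem_MM, mem_Nq] at h2
    exact h2.1 h1.1.1
  have hd2 : Disjoint (PP l r) (PM l r) := by
    rw [Finset.disjoint_left]
    intro t h1 h2
    rw [mem_PP, mem_Sq, mem_Sq] at h1
    rw [mem_PM, mem_Nq] at h2
    exact h2.2 h1.2.1
  have hd3 : Disjoint (MM l r) (PM l r) := by
    rw [Finset.disjoint_left]
    intro t h1 h2
    rw [mem_MM, mem_Nq] at h1
    rw [mem_PM, mem_Sq] at h2
    exact h1.1 h2.1.1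
  have e1 : (Pool.Agent.W521.Density.SS l (r ^ 2)).card = (PP l r).card + (MM l r).card := by
    rw [SS_eq, Finset.card_union_of_disjoint hd1]
  -- the translates
  have t1 : (Finset.univ.filter (fun t : ZMod l => t + 2 * (r : ZMod l) ∈ Sq l)).card =
      (Sq l).card := by
    refine Finset.card_bij (fun t _ => t + 2 * (r : ZMod l)) ?_ ?_ ?_
    · intro t ht
      exact (Finset.mem_filter.1 ht).2
    · intro t _ t' _ h
      exact add_right_cancel h
    · intro x hx
      exact ⟨x - 2 * (r : ZMod l), Finset.mem_filter.2 ⟨Finset.mem_univ _, by simpa using hx⟩,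
        by ring⟩
  have t2 : (Finset.univ.filter (fun t : ZMod l => t - 2 * (r : ZMod l) ∈ Nq l)).card =
      (Nq l).card := by
    refine Finset.card_bij (fun t _ => t - 2 * (r : ZMod l)) ?_ ?_ ?_
    · intro t ht
      exact (Finset.mem_filter.1 ht).2
    · intro t _ t' _ h
      exact sub_left_injective h
    · intro x hx
      exact ⟨x + 2 * (r : ZMod l), Finset.mem_filter.2 ⟨Finset.mem_univ _, by simpa using hx⟩,
        by ring⟩
  have u1 : (Finset.univ.filter (fun t : ZMod l => t + 2 * (r : ZMod l) ∈ Sq l)) ⊆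
      (PP l r ∪ PM l r) ∪ {2 * (r : ZMod l)} := by
    intro t ht
    have h1 := (Finset.mem_filter.1 ht).2
    simp only [Finset.mem_union, mem_PP, mem_PM, Finset.mem_singleton]
    by_cases h2 : t - 2 * (r : ZMod l) = 0
    · exact Or.inr (sub_eq_zero.1 h2)
    · by_cases h3 : IsSquare (t - 2 * (r : ZMod l))
      · exact Or.inl (Or.inl ⟨h1, (mem_Sq l _).2 ⟨h3, h2⟩⟩)
      · exact Or.inl (Or.inr ⟨h1, (mem_Nq l _).2 h3⟩)
  have u2 : (Finset.univ.filter (fun t : ZMod l => t - 2 * (r : ZMod l) ∈ Nq l)) ⊆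
      (MM l r ∪ PM l r) ∪ {-(2 * (r : ZMod l))} := by
    intro t ht
    have h1 := (Finset.mem_filter.1 ht).2
    simp only [Finset.mem_union, mem_MM, mem_PM, Finset.mem_singleton]
    by_cases h2 : t + 2 * (r : ZMod l) = 0
    · exact Or.inr (eq_neg_of_add_eq_zero_left h2)
    · by_cases h3 : IsSquare (t + 2 * (r : ZMod l))
      · exact Or.inl (Or.inr ⟨(mem_Sq l _).2 ⟨h3, h2⟩, h1⟩)
      · exact Or.inl (Or.inl ⟨(mem_Nq l _).2 h3, h1⟩)
  have v1 : PP l r ∪ PM l r ⊆
      (Finset.univ.filter (fun t : ZMod l => t + 2 * (r : ZMod l) ∈ Sq l)) := by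
    intro t ht
    rw [Finset.mem_union, mem_PP, mem_PM] at ht
    exact Finset.mem_filter.2 ⟨Finset.mem_univ _, ht.elim (fun h => h.1) (fun h => h.1)⟩
  have v2 : MM l r ∪ PM l r ⊆
      (Finset.univ.filter (fun t : ZMod l => t - 2 * (r : ZMod l) ∈ Nq l)) := by
    intro t ht
    rw [Finset.mem_union, mem_MM, mem_PM] at ht
    exact Finset.mem_filter.2 ⟨Finset.mem_univ _, ht.elim (fun h => h.2) (fun h => h.2)⟩
  have w1 := (Finset.card_le_card u1).trans (Finset.card_union_le _ _)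
  have w2 := (Finset.card_le_card u2).trans (Finset.card_union_le _ _)
  have w3 := Finset.card_le_card v1
  have w4 := Finset.card_le_card v2
  rw [Finset.card_union_of_disjoint hd2] at w1 w3
  rw [Finset.card_union_of_disjoint hd3] at w2 w4
  rw [Finset.card_singleton] at w1 w2
  rw [t1] at w1 w3
  rw [t2] at w2 w4
  omega

/-- the elements `t` of `SS` for which `w r (t + 2 r)` is a square -/
noncomputable def AA (w : ZMod l) : Finset (ZMod l) := by
  classical
  exact (Pool.Agent.W521.Density.SS l (r ^ 2)).filter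
    (fun t => IsSquare (w * ((r : ZMod l) * (t + 2 * (r : ZMod l)))))

theorem mem_AA (w t : ZMod l) : t ∈ AA l r w ↔ t ∈ Pool.Agent.W521.Density.SS l (r ^ 2) ∧
    IsSquare (w * ((r : ZMod l) * (t + 2 * (r : ZMod l)))) := by
  unfold AA
  rw [Finset.mem_filter]

theorem card_AA (hl : 3 ≤ l) (hr : ¬ l ∣ r) (w : ZMod l) : l ≤ 4 * (AA l r w).card + 5 := by
  classical
  obtain ⟨-, c1, c2⟩ := counts l r hl hr
  by_cases h : IsSquare (w * (r : ZMod l))
  · have h1 : PP l r ⊆ AA l r w := by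
      intro t ht
      rw [mem_AA, SS_eq, Finset.mem_union]
      refine ⟨Or.inl ht, ?_⟩
      rw [← mul_assoc]
      exact h.mul ((mem_Sq l _).1 ((mem_PP l r t).1 ht).1).1
    have := Finset.card_le_card h1
    omega
  · have h1 : MM l r ⊆ AA l r w := by
      intro t ht
      rw [mem_AA, SS_eq, Finset.mem_union]
      refine ⟨Or.inr ht, ?_⟩
      rw [← mul_assoc]
      exact sq_mul_nonsq l h ((mem_Nq l _).1 ((mem_MM l r t).1 ht).1)
    have := Finset.card_le_card h1
    omega

/-- the mixed elements at which `luc` does not vanish -/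
noncomputable def PL (N : ℕ) : Finset (ZMod l) := by
  classical
  exact (PM l r).filter
    (fun t => ((luc ((r ^ 2 : ℕ) : ℤ) N).map (Int.castRingHom (ZMod l))).eval t ≠ 0)

theorem mem_PL (N : ℕ) (t : ZMod l) : t ∈ PL l r N ↔ t ∈ PM l r ∧
    ((luc ((r ^ 2 : ℕ) : ℤ) N).map (Int.castRingHom (ZMod l))).eval t ≠ 0 := by
  unfold PL
  rw [Finset.mem_filter]

theorem card_PL (hl : 3 ≤ l) (hr : ¬ l ∣ r) (N : ℕ) (hN : 0 < N) :
    l ≤ 4 * (PL l r N).card + 6 + 4 * N := by
  classical
  obtain ⟨c1, -, -⟩ := counts l r hl hr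
  obtain ⟨h2, h3⟩ := Pool.Agent.W205.MF.luc_mod ((r ^ 2 : ℕ) : ℤ) N l hN
  have h4 : PM l r ⊆ PL l r N ∪
      ((luc ((r ^ 2 : ℕ) : ℤ) N).map (Int.castRingHom (ZMod l))).roots.toFinset := by
    intro t ht
    rw [Finset.mem_union]
    by_cases h5 : ((luc ((r ^ 2 : ℕ) : ℤ) N).map (Int.castRingHom (ZMod l))).eval t = 0
    · right
      rw [Multiset.mem_toFinset, mem_roots h3]
      exact h5
    · left
      rw [mem_PL]
      exact ⟨ht, h5⟩
  have h5 := (Finset.card_le_card h4).trans (Finset.card_union_le _ _)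
  have h6 : ((luc ((r ^ 2 : ℕ) : ℤ) N).map (Int.castRingHom (ZMod l))).roots.toFinset.card ≤
      N - 1 :=
    (Multiset.toFinset_card_le _).trans ((card_roots' _).trans h2)
  omega

/-- the sets of `n + 1` elements of `SS` for which the product is a square -/
noncomputable def TT (n : ℕ) (k : ZMod l) : Finset (Finset (ZMod l)) := by
  classical
  exact ((Pool.Agent.W521.Density.SS l (r ^ 2)).powersetCard (n + 1)).filter
    (fun T => IsSquare (k * ∏ t ∈ T, ((r : ZMod l) * (t + 2 * (r : ZMod l)))))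

theorem mem_TT (n : ℕ) (k : ZMod l) (T : Finset (ZMod l)) : T ∈ TT l r n k ↔
    (T ⊆ Pool.Agent.W521.Density.SS l (r ^ 2) ∧ T.card = n + 1) ∧
    IsSquare (k * ∏ t ∈ T, ((r : ZMod l) * (t + 2 * (r : ZMod l)))) := by
  unfold TT
  rw [Finset.mem_filter, Finset.mem_powersetCard]

theorem card_TT (hl : 3 ≤ l) (hr : ¬ l ∣ r) (n : ℕ) (k : ZMod l) (m : ℕ)
    (hm : 4 * m + 4 * n + 5 ≤ l) :
    (Pool.Agent.W521.Density.SS l (r ^ 2)).card.choose n * m ≤ (TT l r n k).card * (n + 1) := by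
  classical
  have h := Finset.card_mul_le_card_mul
    (s := (Pool.Agent.W521.Density.SS l (r ^ 2)).powersetCard n) (t := TT l r n k)
    (fun T' T => T' ⊆ T) (m := m) (n := n + 1) ?_ ?_
  · rwa [Finset.card_powersetCard] at h
  · intro T' hT'
    obtain ⟨h1, h2⟩ := Finset.mem_powersetCard.1 hT'
    set w : ZMod l := k * ∏ t ∈ T', ((r : ZMod l) * (t + 2 * (r : ZMod l))) with hw
    have h3 : ((AA l r w \ T').image (fun t => insert t T')) ⊆
        (TT l r n k).bipartiteAbove (fun T' T => T' ⊆ T) T' := by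
      intro T hT
      obtain ⟨t, ht, rfl⟩ := Finset.mem_image.1 hT
      obtain ⟨ht1, ht2⟩ := Finset.mem_sdiff.1 ht
      obtain ⟨ht3, ht4⟩ := (mem_AA l r w t).1 ht1
      rw [Finset.mem_bipartiteAbove, mem_TT]
      refine ⟨⟨⟨?_, ?_⟩, ?_⟩, Finset.subset_insert _ _⟩
      · exact Finset.insert_subset ht3 h1
      · rw [Finset.card_insert_of_notMem ht2, h2]
      · rw [Finset.prod_insert ht2]
        have e : k * ((r : ZMod l) * (t + 2 * (r : ZMod l)) *
            ∏ t ∈ T', ((r : ZMod l) * (t + 2 * (r : ZMod l)))) =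
            w * ((r : ZMod l) * (t + 2 * (r : ZMod l))) := by
          rw [hw]; ring
        rw [e]
        exact ht4
    have h4 : ((AA l r w \ T').image (fun t => insert t T')).card = (AA l r w \ T').card := by
      refine Finset.card_image_of_injOn ?_
      intro t ht t' ht' hh
      have ht2 := (Finset.mem_sdiff.1 (Finset.mem_coe.1 ht)).2
      have h5 : t ∈ insert t' T' := by
        have h6 : t ∈ insert t T' := Finset.mem_insert_self _ _
        rwa [show insert t T' = insert t' T' from hh] at h6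
      exact (Finset.mem_insert.1 h5).resolve_right ht2
    have h5 := Finset.card_le_card h3
    have h6 := card_AA l r hl hr w
    have h7 := Finset.le_card_sdiff T' (AA l r w)
    omega
  · intro T hT
    obtain ⟨⟨h1, h2⟩, -⟩ := (mem_TT l r n k T).1 hT
    have h3 : ((Pool.Agent.W521.Density.SS l (r ^ 2)).powersetCard n).bipartiteBelow
        (fun T' T => T' ⊆ T) T ⊆ T.powersetCard n := by
      intro T' hT'
      rw [Finset.mem_bipartiteBelow, Finset.mem_powersetCard] at hT'
      exact Finset.mem_powersetCard.2 ⟨hT'.2, hT'.1.2⟩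
    refine (Finset.card_le_card h3).trans ?_
    rw [Finset.card_powersetCard, h2]
    simp

theorem lower (n N : ℕ) (κ : (ZMod l)ˣ) :
    (PL l r N).card.choose 2 * (TT l r n (κ : ZMod l)).card ≤
      (oflipSet (n + 3) N l r κ).ncard := by
  classical
  have hdis : ∀ t, t ∈ PL l r N → t ∉ Pool.Agent.W521.Density.SS l (r ^ 2) := by
    intro t h h'
    have h1 := ((mem_PL l r N t).1 h).1
    rw [mem_PM, mem_Sq, mem_Nq] at h1
    rw [SS_eq, Finset.mem_union, mem_PP, mem_MM, mem_Sq, mem_Sq, mem_Nq, mem_Nq] at h'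
    rcases h' with h' | h'
    · exact h1.2 h'.2.1
    · exact h'.1 h1.1.1
  let F : Finset (Finset (ZMod l)) :=
    (((PL l r N).powersetCard 2) ×ˢ (TT l r n (κ : ZMod l))).image (fun p => p.1 ∪ p.2)
  let G : Finset (ZMod l)[X] := F.image (fun T => ∏ t ∈ T, (X - C t))
  have hF : F.card = (PL l r N).card.choose 2 * (TT l r n (κ : ZMod l)).card := by
    rw [Finset.card_image_of_injOn, Finset.card_product, Finset.card_powersetCard]
    rintro ⟨A, B⟩ h ⟨A', B'⟩ h' hh
    obtain ⟨h3, h4⟩ := Finset.mem_product.1 h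
    obtain ⟨h3', h4'⟩ := Finset.mem_product.1 h'
    have h5 : A ⊆ PL l r N := (Finset.mem_powersetCard.1 h3).1
    have h5' : A' ⊆ PL l r N := (Finset.mem_powersetCard.1 h3').1
    have h6 : B ⊆ _ := ((mem_TT l r n _ B).1 h4).1.1
    have h6' : B' ⊆ _ := ((mem_TT l r n _ B').1 h4').1.1
    change A ∪ B = A' ∪ B' at hh
    have key : ∀ t, t ∈ A ∪ B ↔ t ∈ A' ∪ B' := fun t => by rw [hh]
    have e1 : A = A' := by
      ext t
      constructor
      · intro ht
        rcases Finset.mem_union.1 ((key t).1 (Finset.mem_union_left _ ht)) with h7 | h7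
        · exact h7
        · exact absurd (h6' h7) (hdis t (h5 ht))
      · intro ht
        rcases Finset.mem_union.1 ((key t).2 (Finset.mem_union_left _ ht)) with h7 | h7
        · exact h7
        · exact absurd (h6 h7) (hdis t (h5' ht))
    have e2 : B = B' := by
      ext t
      constructor
      · intro ht
        rcases Finset.mem_union.1 ((key t).1 (Finset.mem_union_right _ ht)) with h7 | h7
        · exact absurd (h6 ht) (hdis t (h5' h7))
        · exact h7
      · intro ht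
        rcases Finset.mem_union.1 ((key t).2 (Finset.mem_union_right _ ht)) with h7 | h7
        · exact absurd (h6' ht) (hdis t (h5 h7))
        · exact h7
    rw [e1, e2]
  have hG : G.card = F.card :=
    Finset.card_image_of_injective _ Pool.Agent.W205.MF.prod_injective
  have hsub : (G : Set (ZMod l)[X]) ⊆ oflipSet (n + 3) N l r κ := by
    intro f hf
    obtain ⟨T, hT, rfl⟩ := Finset.mem_image.1 (Finset.mem_coe.1 hf)
    obtain ⟨⟨A, B⟩, h1, rfl⟩ := Finset.mem_image.1 hT
    obtain ⟨h3, h4⟩ := Finset.mem_product.1 h1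
    obtain ⟨h5, h6⟩ := Finset.mem_powersetCard.1 h3
    obtain ⟨⟨h7, h8⟩, h9⟩ := (mem_TT l r n _ B).1 h4
    change A ⊆ PL l r N at h5
    change A.card = 2 at h6
    change B ⊆ _ at h7
    change B.card = n + 1 at h8
    obtain ⟨t₀, t₁, hne, hA⟩ := Finset.card_eq_two.1 h6
    have ht₀ : t₀ ∈ A := by rw [hA]; simp
    have ht₁ : t₁ ∈ A := by rw [hA]; simp
    have hAB : Disjoint A B := by
      rw [Finset.disjoint_left]
      intro t h h'
      exact hdis t (h5 h) (h7 h')
    have hE : ((A ∪ B).erase t₀).erase t₁ = B := by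
      ext t
      simp only [Finset.mem_erase, Finset.mem_union]
      constructor
      · rintro ⟨h10, h11, h12 | h12⟩
        · rw [hA] at h12
          rcases Finset.mem_insert.1 h12 with h13 | h13
          · exact absurd h13 h11
          · exact absurd (Finset.mem_singleton.1 h13) h10
        · exact h12
      · intro h10
        refine ⟨?_, ?_, Or.inr h10⟩
        · rintro rfl
          exact Finset.disjoint_left.1 hAB ht₁ h10
        · rintro rfl
          exact Finset.disjoint_left.1 hAB ht₀ h10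
    have q₀ := (mem_PL l r N t₀).1 (h5 ht₀)
    have q₁ := (mem_PL l r N t₁).1 (h5 ht₁)
    rw [mem_PM, mem_Sq, mem_Nq] at q₀ q₁
    refine ⟨A ∪ B, t₀, t₁, ?_, Finset.mem_union_left _ ht₀, Finset.mem_union_left _ ht₁, hne, rfl,
      ⟨q₀.1.1.1, q₀.1.1.2, q₀.1.2⟩, ⟨q₁.1.1.1, q₁.1.1.2, q₁.1.2⟩, q₀.2, ?_, ?_⟩
    · rw [Finset.card_union_of_disjoint hAB, h6, h8]
      omega
    · intro t ht
      rw [hE] at ht
      exact (mem_SS' l r t).1 (h7 ht)
    · rw [hE]
      exact h9
  have hfin : (oflipSet (n + 3) N l r κ).Finite := by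
    refine Pool.Agent.W205.MF.finite_prod.subset ?_
    rintro f ⟨T, t₀, t₁, -, -, -, -, rfl, -⟩
    exact ⟨T, rfl⟩
  rw [← hF, ← hG, ← Set.ncard_coe_finset]
  exact Set.ncard_le_ncard hsub hfin

end counts

theorem ocnte : St_OCNTE := by
  intro g N hg hN
  obtain ⟨n, rfl⟩ : ∃ n, g = n + 3 := ⟨g - 3, by omega⟩
  set D : ℕ := 1024 * (4 ^ n * n.factorial * (n + 1)) with hD
  have hD0 : 0 < D := by positivity
  refine ⟨1 / (D : ℝ), by positivity, 8 * n + 8 * N + 64, ?_⟩
  intro l hl hll r hr κ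
  have : Fact l.Prime := ⟨hl⟩
  have hlr : ¬ l ∣ r ^ 2 := fun h => hr (hl.dvd_of_dvd_pow h)
  have hDR : (0 : ℝ) < (D : ℝ) := by exact_mod_cast hD0
  rw [div_mul_eq_mul_div, one_mul, div_le_iff₀ hDR]
  have h1 := lower l r n N κ
  obtain ⟨m, hm1, hm2⟩ : ∃ m : ℕ, l ≤ 8 * m ∧ 4 * m + 4 * n + 5 ≤ l :=
    ⟨(l + 7) / 8, by omega, by omega⟩
  have h2 := card_TT l r (by omega) hr n (κ : ZMod l) m hm2
  have h3 := Pool.Agent.W521.Density.choose_lower l (r ^ 2) n (by omega) hlr
  have h4 := card_PL l r (by omega) hr N hN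
  have h5 : l ≤ 8 * ((PL l r N).card - 1) := by omega
  have h6 : ((PL l r N).card - 1) ^ 2 ≤ 2 * (PL l r N).card.choose 2 := by
    obtain ⟨c, hc⟩ : ∃ c, (PL l r N).card = c + 1 := ⟨(PL l r N).card - 1, by omega⟩
    rw [hc, Nat.choose_two_right]
    simp only [Nat.add_sub_cancel]
    have h7 : 2 ∣ (c + 1) * c := by
      rw [mul_comm]
      exact (Nat.even_mul_succ_self c).two_dvd
    rw [Nat.mul_div_cancel' h7]
    nlinarith
  have h7 : l ^ 2 ≤ 128 * (PL l r N).card.choose 2 := by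
    calc l ^ 2 ≤ (8 * ((PL l r N).card - 1)) ^ 2 := Nat.pow_le_pow_left h5 2
      _ = 64 * ((PL l r N).card - 1) ^ 2 := by ring
      _ ≤ 64 * (2 * (PL l r N).card.choose 2) := Nat.mul_le_mul_left _ h6
      _ = _ := by ring
  have h8 : l ^ (n + 3) ≤ (oflipSet (n + 3) N l r κ).ncard * D := by
    calc l ^ (n + 3) = l ^ 2 * (l ^ n * l) := by ring
      _ ≤ (128 * (PL l r N).card.choose 2) *
          ((4 ^ n * n.factorial * (Pool.Agent.W521.Density.SS l (r ^ 2)).card.choose n) *
            (8 * m)) := Nat.mul_le_mul h7 (Nat.mul_le_mul h3 hm1)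
      _ = 1024 * (4 ^ n * n.factorial) * (PL l r N).card.choose 2 *
          ((Pool.Agent.W521.Density.SS l (r ^ 2)).card.choose n * m) := by ring
      _ ≤ 1024 * (4 ^ n * n.factorial) * (PL l r N).card.choose 2 *
          ((TT l r n (κ : ZMod l)).card * (n + 1)) := Nat.mul_le_mul_left _ h2
      _ = ((PL l r N).card.choose 2 * (TT l r n (κ : ZMod l)).card) * D := by rw [hD]; ring
      _ ≤ _ := Nat.mul_le_mul_right _ h1
  exact_mod_cast h8

end Pool.Agent.W460.MF
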